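import Mathlib

/-!
# Weighted translation operators on `L^p([0,1])` and hypercyclicity: definitions
-/

open MeasureTheory Set Filter Topology
open scoped ENNReal

namespace Pool.Agent.Lib.MP_e40715_an

/-- Lebesgue measure on the unit interval `[0,1]`. -/
noncomputable def leb01 : Measure ℝ := volume.restrict (Icc (0:ℝ) 1)

instance : IsProbabilityMeasure leb01 := by
  constructor
  simp [leb01]

theorem measurable_rot (α : ℝ) : Measurable (fun x : ℝ => Int.fract (x + α)) := by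
  fun_prop

/-- The translation `x ↦ {x + α}` preserves Lebesgue measure on `[0,1]`. -/
theorem measurePreserving_rot (α : ℝ) :
    MeasurePreserving (fun x : ℝ => Int.fract (x + α)) leb01 leb01 := by
  refine ⟨measurable_rot α, ?_⟩
  ext s hs
  rw [Measure.map_apply (measurable_rot α) hs]
  have hA : MeasurableSet (Int.fract ⁻¹' s : Set ℝ) := measurable_fract hs
  have h1 := isAddFundamentalDomain_Ioc (T := 1) one_pos 0 (volume : Measure ℝ)
  have h2 := isAddFundamentalDomain_Ioc (T := 1) one_pos α (volume : Measure ℝ)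
  have h3 := h2.measure_set_eq h1 hA (by
    rintro ⟨g, hg⟩
    obtain ⟨k, rfl⟩ := AddSubgroup.mem_zmultiples_iff.1 hg
    ext x
    simp only [mem_preimage, AddSubgroup.mk_vadd, vadd_eq_add, zsmul_eq_mul, mul_one]
    rw [add_comm, Int.fract_add_intCast])
  have e1 : leb01 ((fun x : ℝ => Int.fract (x + α)) ⁻¹' s)
      = volume ((Int.fract ⁻¹' s : Set ℝ) ∩ Ioc α (α + 1)) := by
    unfold leb01
    rw [Measure.restrict_congr_set (Ioc_ae_eq_Icc (μ := volume)).symm,
      Measure.restrict_apply (measurable_rot α hs)]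
    have : ((fun x : ℝ => Int.fract (x + α)) ⁻¹' s ∩ Ioc (0:ℝ) 1)
        = (fun x => x + α) ⁻¹' ((Int.fract ⁻¹' s : Set ℝ) ∩ Ioc α (α + 1)) := by
      ext x
      simp only [mem_inter_iff, mem_preimage, mem_Ioc]
      constructor
      · rintro ⟨h, h1, h2⟩
        exact ⟨h, by linarith, by linarith⟩
      · rintro ⟨h, h1, h2⟩
        exact ⟨h, by linarith, by linarith⟩
    rw [this, measure_preimage_add_right]
  have e2 : leb01 s = volume ((Int.fract ⁻¹' s : Set ℝ) ∩ Ioc 0 (0 + 1)) := by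
    unfold leb01
    rw [Measure.restrict_congr_set (Ioo_ae_eq_Icc (μ := volume)).symm, Measure.restrict_apply hs]
    have : ((Int.fract ⁻¹' s : Set ℝ) ∩ Ioc 0 (0 + 1) : Set ℝ)
        =ᵐ[volume] ((Int.fract ⁻¹' s : Set ℝ) ∩ Ioo (0:ℝ) 1 : Set ℝ) := by
      rw [zero_add]
      exact (ae_eq_refl _).inter (Ioo_ae_eq_Ioc (μ := volume)).symm
    rw [measure_congr this]
    congr 1
    ext x
    simp only [mem_inter_iff, mem_preimage, mem_Ioo]
    constructor
    · rintro ⟨h, h1, h2⟩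
      rw [Int.fract_eq_self.2 ⟨h1.le, h2⟩]
      exact ⟨h, h1, h2⟩
    · rintro ⟨h, h1, h2⟩
      rw [Int.fract_eq_self.2 ⟨h1.le, h2⟩] at h
      exact ⟨h, h1, h2⟩
  rw [e1, e2, h3]

/-- `x ↦ φ(x) f({x+α})` is in `L^p([0,1])` for `φ ∈ L^∞([0,1])` and `f ∈ L^p([0,1])`. -/
theorem memLp_weighted (p : ℝ≥0∞) (φ : Lp ℂ ∞ leb01) (α : ℝ) (f : Lp ℂ p leb01) :
    MemLp (fun x : ℝ => φ x * f (Int.fract (x + α))) p leb01 :=
  ((Lp.memLp f).comp_measurePreserving (measurePreserving_rot α)).mul (Lp.memLp φ)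

/-- The weighted translation operator `T_{φ,α}` on `L^p([0,1])`:
`(T_{φ,α} f)(x) = φ(x) f({x+α})` for almost every `x ∈ [0,1]`. -/
noncomputable def weightedTranslation (p : ℝ≥0∞) (φ : Lp ℂ ∞ leb01) (α : ℝ)
    (f : Lp ℂ p leb01) : Lp ℂ p leb01 :=
  (memLp_weighted p φ α f).toLp (fun x : ℝ => φ x * f (Int.fract (x + α)))

/-- A map `T : X → X` is hypercyclic if some point `x` has a dense orbit
`{T^n x : n = 0, 1, 2, ...}`. -/
def IsHypercyclic {X : Type*} [TopologicalSpace X] (T : X → X) : Prop :=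
  ∃ x : X, Dense (Set.range fun n : ℕ => T^[n] x)

end Pool.Agent.Lib.MP_e40715_an
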