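import Mathlib
import Pool.Agent.Lib.MP_e40715_an.Defs

/-!
# No weighted translation operator on `L^p([0,1])` is hypercyclic

For `φ ∈ L^∞([0,1])` and `α ∈ [0,1]` let `(T f)(x) = φ(x) f({x+α})` on `L^p([0,1])`.

Idea of the proof.  Write `R x = {x+α}`.  If `f` is any vector then
`T^n f = w_n · (f ∘ R^n)` and `T(T^n f) = w_n · ((T f) ∘ R^n)` with the same factor `w_n`.  Hence
the distribution of the quotient `|T F| / |F|` is, for every `F = T^n f` in the orbit, dominated
by the distribution of `|T f| / |f|`, because `R` preserves Lebesgue measure.  If the orbit of `f`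
is dense, this passes to every `g ∈ L^p` (lower semicontinuity along almost everywhere convergent
subsequences): both `m{s|g| < |Tg|} ≤ m{s|f| < |Tf|}` and `m{|Tg| < s|g|} ≤ m{|Tf| < s|f|}`.
For `0 < α < 1` and `φ ≠ 0` one takes `s = ‖φ‖ + 1`; the second inequality with `g = 1` shows that
`m{|Tf| < s|f|} = 1`, while the first one with `g` the indicator function of the complement of a
short interval gives `m{s|f| < |Tf|} > 0`, which is absurd.  For `α = 0, 1` (and for `φ = 0`) the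
operator is a multiplication operator, and an elementary argument applies.
-/

open MeasureTheory Set Filter Topology
open scoped ENNReal

namespace Pool.Agent.Lib.MP_e40715_an

/-- The same operator as a continuous linear map (auxiliary). -/
noncomputable def wtCLM (p : ℝ≥0∞) [Fact (1 ≤ p)] (φ : Lp ℂ ∞ leb01) (α : ℝ) :
    Lp ℂ p leb01 →L[ℂ] Lp ℂ p leb01 :=
  ((ContinuousLinearMap.mul ℂ ℂ).holderL leb01 ∞ p p φ) ∘L
    (Lp.compMeasurePreservingₗᵢ ℂ (fun x : ℝ => Int.fract (x + α))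
      (measurePreserving_rot α)).toContinuousLinearMap

theorem wtCLM_apply (p : ℝ≥0∞) [Fact (1 ≤ p)] (φ : Lp ℂ ∞ leb01) (α : ℝ)
    (f : Lp ℂ p leb01) :
    ∀ᵐ x ∂leb01, wtCLM p φ α f x = φ x * f (Int.fract (x + α)) := by
  have h1 := (ContinuousLinearMap.mul ℂ ℂ).coeFn_holder (r := p) φ
    (Lp.compMeasurePreserving (fun x : ℝ => Int.fract (x + α)) (measurePreserving_rot α) f)
  have h2 := Lp.coeFn_compMeasurePreserving f (measurePreserving_rot α)
  filter_upwards [h1, h2] with x hx1 hx2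
  have : wtCLM p φ α f = (ContinuousLinearMap.mul ℂ ℂ).holder p φ
    (Lp.compMeasurePreserving (fun x : ℝ => Int.fract (x + α)) (measurePreserving_rot α) f) := rfl
  rw [this, hx1, hx2]
  rfl

theorem weightedTranslation_eq (p : ℝ≥0∞) [Fact (1 ≤ p)] (φ : Lp ℂ ∞ leb01) (α : ℝ)
    (f : Lp ℂ p leb01) : weightedTranslation p φ α f = wtCLM p φ α f := by
  apply Lp.ext
  filter_upwards [wtCLM_apply p φ α f, (memLp_weighted p φ α f).coeFn_toLp] with x hx1 hx2
  rw [hx1]
  exact hx2

theorem iterate_eq (p : ℝ≥0∞) [Fact (1 ≤ p)] (φ : Lp ℂ ∞ leb01) (α : ℝ) (n : ℕ)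
    (f : Lp ℂ p leb01) : (weightedTranslation p φ α)^[n] f = ((wtCLM p φ α) ^ n) f := by
  induction n with
  | zero => rfl
  | succ n ih => rw [Function.iterate_succ_apply', ih, weightedTranslation_eq, pow_succ',
      mul_apply_eq_comp]


/-! ### Proof -/

theorem measure_lt_le_of_tendsto {X : Type*} [MeasurableSpace X] (μ : Measure X)
    {U V : ℕ → X → ℝ} {u v : X → ℝ} {c : ℝ≥0∞}
    (hU : ∀ᵐ x ∂μ, Tendsto (fun k => U k x) atTop (𝓝 (u x)))
    (hV : ∀ᵐ x ∂μ, Tendsto (fun k => V k x) atTop (𝓝 (v x)))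
    (hc : ∀ k, μ {x | U k x < V k x} ≤ c) : μ {x | u x < v x} ≤ c := by
  have hsub : ({x | u x < v x} : Set X) ≤ᵐ[μ] ⋃ N : ℕ, ⋂ k ≥ N, {x | U k x < V k x} := by
    filter_upwards [hU, hV] with x hx1 hx2 hlt
    have h := hx1.eventually_lt hx2 hlt
    obtain ⟨N, hN⟩ := eventually_atTop.1 h
    show x ∈ ⋃ N : ℕ, ⋂ k ≥ N, {x | U k x < V k x}
    simp only [mem_iUnion, mem_iInter]
    exact ⟨N, hN⟩
  refine (measure_mono_ae hsub).trans ?_
  have hmono : Monotone (fun N : ℕ => ⋂ k ≥ N, {x | U k x < V k x}) := by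
    intro M N hMN x hx
    simp only [mem_iInter] at hx ⊢
    exact fun k hk => hx k (le_trans hMN hk)
  rw [hmono.measure_iUnion]
  refine iSup_le fun N => ?_
  refine (measure_mono ?_).trans (hc N)
  intro x hx
  simp only [mem_iInter] at hx
  exact hx N le_rfl

section
variable {p : ℝ≥0∞} [Fact (1 ≤ p)]

/-- The powers of a weighted translation are `(T^n g)(x) = w_n(x) g(R^n x)`. -/
theorem pow_formula (φ : Lp ℂ ∞ leb01) (α : ℝ) (n : ℕ) :
    ∃ w : ℝ → ℂ, ∀ g : Lp ℂ p leb01, ∀ᵐ x ∂leb01,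
      ((wtCLM p φ α) ^ n) g x
        = w x * g ((fun x : ℝ => Int.fract (x + α))^[n] x) := by
  induction n with
  | zero => exact ⟨fun _ => 1, fun g => by simp⟩
  | succ n ih =>
    obtain ⟨w, hw⟩ := ih
    refine ⟨fun x => φ x * w (Int.fract (x + α)), fun g => ?_⟩
    have h1 := wtCLM_apply p φ α (((wtCLM p φ α) ^ n) g)
    have h2 := (measurePreserving_rot α).quasiMeasurePreserving.ae (hw g)
    filter_upwards [h1, h2] with x hx1 hx2
    rw [pow_succ', mul_apply_eq_comp, hx1, hx2, Function.iterate_succ_apply]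
    ring

theorem closure_seq (T : Lp ℂ p leb01 →L[ℂ] Lp ℂ p leb01) {f : Lp ℂ p leb01}
    (hf : Dense (Set.range fun n : ℕ => (T ^ n) f)) (g : Lp ℂ p leb01) :
    ∃ n : ℕ → ℕ, (∀ᵐ x ∂leb01, Tendsto (fun k => (T ^ (n k)) f x) atTop (𝓝 (g x))) ∧
      (∀ᵐ x ∂leb01, Tendsto (fun k => T ((T ^ (n k)) f) x) atTop (𝓝 (T g x))) := by
  obtain ⟨F, hF, hFg⟩ := mem_closure_iff_seq_limit.1 (hf g)
  choose n hn using hF
  have hFg' : Tendsto (fun k => T (F k)) atTop (𝓝 (T g)) :=
    (T.continuous.tendsto g).comp hFg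
  obtain ⟨a, ha, ha'⟩ := (tendstoInMeasure_of_tendsto_Lp hFg).exists_seq_tendsto_ae
  obtain ⟨b, hb, hb'⟩ :=
    (tendstoInMeasure_of_tendsto_Lp (hFg'.comp ha.tendsto_atTop)).exists_seq_tendsto_ae
  refine ⟨fun k => n (a (b k)), ?_, ?_⟩
  · filter_upwards [ha'] with x hx
    have := hx.comp hb.tendsto_atTop
    simpa [hn, Function.comp_def] using this
  · filter_upwards [hb'] with x hx
    simpa [hn] using hx

theorem law_upper (φ : Lp ℂ ∞ leb01) (α : ℝ) (f : Lp ℂ p leb01) (s : ℝ) (n : ℕ) :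
    leb01 {x | s * ‖((wtCLM p φ α) ^ n) f x‖
        < ‖wtCLM p φ α (((wtCLM p φ α) ^ n) f) x‖}
      ≤ leb01 {x | s * ‖f x‖ < ‖wtCLM p φ α f x‖} := by
  set T := wtCLM p φ α with hT
  obtain ⟨w, hw⟩ := pow_formula (p := p) φ α n
  have hcomm : T ((T ^ n) f) = (T ^ n) (T f) := by
    rw [← mul_apply_eq_comp, ← mul_apply_eq_comp, ← pow_succ', ← pow_succ]
  have hmp := (measurePreserving_rot α).iterate n
  have hA : NullMeasurableSet {x | s * ‖f x‖ < ‖T f x‖} leb01 :=
    nullMeasurableSet_lt ((Lp.aestronglyMeasurable f).norm.aemeasurable.const_mul s)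
      (Lp.aestronglyMeasurable (T f)).norm.aemeasurable
  rw [← hmp.measure_preimage hA]
  refine measure_mono_ae ?_
  filter_upwards [hw f, hw (T f)] with x hx1 hx2 hlt
  have hlt' : s * ‖(T ^ n) f x‖ < ‖T ((T ^ n) f) x‖ := hlt
  rw [hcomm] at hlt'
  change s * ‖f ((fun x : ℝ => Int.fract (x + α))^[n] x)‖
    < ‖T f ((fun x : ℝ => Int.fract (x + α))^[n] x)‖
  rw [hx1, hx2, norm_mul, norm_mul] at hlt'
  refine lt_of_mul_lt_mul_left ?_ (norm_nonneg (w x))
  linarith

theorem law_lower (φ : Lp ℂ ∞ leb01) (α : ℝ) (f : Lp ℂ p leb01) (s : ℝ) (n : ℕ) :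
    leb01 {x | ‖wtCLM p φ α (((wtCLM p φ α) ^ n) f) x‖
        < s * ‖((wtCLM p φ α) ^ n) f x‖}
      ≤ leb01 {x | ‖wtCLM p φ α f x‖ < s * ‖f x‖} := by
  set T := wtCLM p φ α with hT
  obtain ⟨w, hw⟩ := pow_formula (p := p) φ α n
  have hcomm : T ((T ^ n) f) = (T ^ n) (T f) := by
    rw [← mul_apply_eq_comp, ← mul_apply_eq_comp, ← pow_succ', ← pow_succ]
  have hmp := (measurePreserving_rot α).iterate n
  have hA : NullMeasurableSet {x | ‖T f x‖ < s * ‖f x‖} leb01 :=
    nullMeasurableSet_lt (Lp.aestronglyMeasurable (T f)).norm.aemeasurable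
      ((Lp.aestronglyMeasurable f).norm.aemeasurable.const_mul s)
  rw [← hmp.measure_preimage hA]
  refine measure_mono_ae ?_
  filter_upwards [hw f, hw (T f)] with x hx1 hx2 hlt
  have hlt' : ‖T ((T ^ n) f) x‖ < s * ‖(T ^ n) f x‖ := hlt
  rw [hcomm] at hlt'
  change ‖T f ((fun x : ℝ => Int.fract (x + α))^[n] x)‖
    < s * ‖f ((fun x : ℝ => Int.fract (x + α))^[n] x)‖
  rw [hx1, hx2, norm_mul, norm_mul] at hlt'
  refine lt_of_mul_lt_mul_left ?_ (norm_nonneg (w x))
  linarith

/-- If `f` has a dense orbit then the distribution of `|Tg|/|g|` is dominated by that of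
`|Tf|/|f|`. -/
theorem law_upper' (φ : Lp ℂ ∞ leb01) (α : ℝ) {f : Lp ℂ p leb01}
    (hf : Dense (Set.range fun n : ℕ => ((wtCLM p φ α) ^ n) f))
    (g : Lp ℂ p leb01) (s : ℝ) :
    leb01 {x | s * ‖g x‖ < ‖wtCLM p φ α g x‖}
      ≤ leb01 {x | s * ‖f x‖ < ‖wtCLM p φ α f x‖} := by
  obtain ⟨n, h1, h2⟩ := closure_seq _ hf g
  refine measure_lt_le_of_tendsto leb01
    (U := fun k x => s * ‖((wtCLM p φ α) ^ (n k)) f x‖)
    (V := fun k x => ‖wtCLM p φ α (((wtCLM p φ α) ^ (n k)) f) x‖)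
    ?_ ?_ (fun k => law_upper φ α f s (n k))
  · filter_upwards [h1] with x hx using hx.norm.const_mul s
  · filter_upwards [h2] with x hx using hx.norm

theorem law_lower' (φ : Lp ℂ ∞ leb01) (α : ℝ) {f : Lp ℂ p leb01}
    (hf : Dense (Set.range fun n : ℕ => ((wtCLM p φ α) ^ n) f))
    (g : Lp ℂ p leb01) (s : ℝ) :
    leb01 {x | ‖wtCLM p φ α g x‖ < s * ‖g x‖}
      ≤ leb01 {x | ‖wtCLM p φ α f x‖ < s * ‖f x‖} := by
  obtain ⟨n, h1, h2⟩ := closure_seq _ hf g
  refine measure_lt_le_of_tendsto leb01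
    (V := fun k x => s * ‖((wtCLM p φ α) ^ (n k)) f x‖)
    (U := fun k x => ‖wtCLM p φ α (((wtCLM p φ α) ^ (n k)) f) x‖)
    ?_ ?_ (fun k => law_lower φ α f s (n k))
  · filter_upwards [h2] with x hx using hx.norm
  · filter_upwards [h1] with x hx using hx.norm.const_mul s

omit [Fact (1 ≤ p)] in
theorem const_ae (c : ℂ) :
    ∀ᵐ x ∂leb01, (indicatorConstLp p MeasurableSet.univ (measure_ne_top leb01 _) c :
      Lp ℂ p leb01) x = c := by
  filter_upwards [indicatorConstLp_coeFn (p := p) (hs := MeasurableSet.univ)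
    (hμs := measure_ne_top leb01 univ) (c := c)] with x hx
  rw [hx]; simp

/-- Multiplication operators are not hypercyclic. -/
theorem not_hypercyclic_of_mul (φ : Lp ℂ ∞ leb01) (T : Lp ℂ p leb01 →L[ℂ] Lp ℂ p leb01)
    (hT : ∀ f : Lp ℂ p leb01, ∀ᵐ x ∂leb01, T f x = φ x * f x) (f : Lp ℂ p leb01)
    (hf : Dense (Set.range fun n : ℕ => (T ^ n) f)) : False := by
  have hpow : ∀ n : ℕ, ∀ᵐ x ∂leb01, (T ^ n) f x = φ x ^ n * f x := by
    intro n
    induction n with
    | zero => simp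
    | succ n ih =>
      filter_upwards [ih, hT ((T ^ n) f)] with x hx1 hx2
      rw [pow_succ', mul_apply_eq_comp, hx2, hx1]
      ring
  by_cases hA : leb01 {x | ‖φ x‖ ≤ 1} = 0
  · -- `|φ| > 1` almost everywhere: orbits stay away from `0`
    have key : leb01 {x | ‖(0 : Lp ℂ p leb01) x‖ < ‖f x‖} ≤ 0 := by
      obtain ⟨n, h1, h2⟩ := closure_seq T hf 0
      refine measure_lt_le_of_tendsto leb01
        (U := fun k x => ‖(T ^ (n k)) f x‖) (V := fun k x => ‖f x‖) ?_ ?_ ?_
      · filter_upwards [h1] with x hx using hx.norm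
      · exact Eventually.of_forall fun x => tendsto_const_nhds
      · intro k
        refine le_of_eq (measure_mono_null ?_ (measure_union_null hA (ae_iff.1 (hpow (n k)))))
        intro x hx
        by_contra hcon
        rw [mem_union, not_or] at hcon
        obtain ⟨hc1, hc2⟩ := hcon
        have hc1' : ¬ ‖φ x‖ ≤ 1 := hc1
        have hc2' : (T ^ (n k)) f x = φ x ^ (n k) * f x := not_not.1 hc2
        have hx' : ‖(T ^ (n k)) f x‖ < ‖f x‖ := hx
        rw [hc2', norm_mul, norm_pow] at hx'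
        have : 1 ≤ ‖φ x‖ ^ (n k) := one_le_pow₀ (not_le.1 hc1').le
        nlinarith [norm_nonneg (f x)]
    have hf0 : f = 0 := by
      rw [Lp.eq_zero_iff_ae_eq_zero]
      have h0 := Lp.coeFn_zero ℂ p leb01
      have : ∀ᵐ x ∂leb01, ¬ ‖(0 : Lp ℂ p leb01) x‖ < ‖f x‖ := by
        rw [ae_iff]
        simpa using key
      filter_upwards [this, h0] with x hx hx0
      rw [hx0] at hx
      simpa using hx
    subst hf0
    have hcl := hf (indicatorConstLp p MeasurableSet.univ (measure_ne_top leb01 _) (1 : ℂ))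
    have hr : (Set.range fun n : ℕ => (T ^ n) (0 : Lp ℂ p leb01)) = {0} := by
      ext g
      simp
    rw [hr, closure_singleton, mem_singleton_iff] at hcl
    have h1 := const_ae (p := p) 1
    rw [hcl] at h1
    have h0 := Lp.coeFn_zero ℂ p leb01
    have : ∀ᵐ x ∂leb01, False := by
      filter_upwards [h1, h0] with x hx1 hx0
      rw [hx0] at hx1
      simp at hx1
    simp at this
    exact IsProbabilityMeasure.ne_zero leb01 this
  · -- `|φ| ≤ 1` on a set of positive measure: orbits are bounded by `|f|` there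
    set A : Set ℝ := {x | ‖φ x‖ ≤ 1} with hAdef
    have hmem : MemLp (fun x => ((‖f x‖ + 1 : ℝ) : ℂ)) p leb01 :=
      ((Lp.memLp f).norm.add (memLp_const 1)).ofReal
    set g : Lp ℂ p leb01 := hmem.toLp with hg
    have hgx := hmem.coeFn_toLp
    have key : leb01 {x | ‖f x‖ < A.indicator (fun x => ‖g x‖) x} ≤ 0 := by
      obtain ⟨n, h1, h2⟩ := closure_seq T hf g
      refine measure_lt_le_of_tendsto leb01
        (U := fun k x => ‖f x‖) (V := fun k x => A.indicator (fun x => ‖(T ^ (n k)) f x‖) x)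
        ?_ ?_ ?_
      · exact Eventually.of_forall fun x => tendsto_const_nhds
      · filter_upwards [h1] with x hx
        by_cases hxA : x ∈ A
        · simpa [hxA] using hx.norm
        · simp [hxA]
      · intro k
        refine le_of_eq (measure_mono_null ?_ (ae_iff.1 (hpow (n k))))
        intro x hx hcon
        have hx' : ‖f x‖ < A.indicator (fun x => ‖(T ^ (n k)) f x‖) x := hx
        by_cases hxA : x ∈ A
        · rw [indicator_of_mem hxA] at hx'
          rw [hcon, norm_mul, norm_pow] at hx'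
          have hxA' : ‖φ x‖ ≤ 1 := hxA
          have : ‖φ x‖ ^ (n k) ≤ 1 := pow_le_one₀ (norm_nonneg _) hxA'
          nlinarith [norm_nonneg (f x)]
        · rw [indicator_of_notMem hxA] at hx'
          linarith [norm_nonneg (f x)]
    refine hA (le_antisymm (le_trans (measure_mono_ae ?_) key) zero_le)
    filter_upwards [hgx] with x hx hxA
    have hxA' : x ∈ A := hxA
    change ‖f x‖ < A.indicator (fun x => ‖g x‖) x
    rw [indicator_of_mem hxA', hg, hx, Complex.norm_real, Real.norm_of_nonneg]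
    · linarith
    · positivity

/-- **No weighted translation operator on `L^p([0,1])` is hypercyclic.** -/
theorem never_hypercyclic (p : ℝ≥0∞) [Fact (1 ≤ p)] (φ : Lp ℂ ∞ leb01) (α : ℝ)
    (hα : α ∈ Icc (0 : ℝ) 1) : ¬ IsHypercyclic (weightedTranslation p φ α) := by
  rintro ⟨f, hf⟩
  simp only [iterate_eq] at hf
  have hIco : ∀ᵐ x ∂leb01, x ∈ Ico (0:ℝ) 1 := by
    unfold leb01
    rw [Measure.restrict_congr_set (Ico_ae_eq_Icc (μ := volume)).symm]
    exact ae_restrict_mem measurableSet_Ico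
  by_cases hφ : φ = 0
  · refine not_hypercyclic_of_mul φ _ (fun f => ?_) f hf
    subst hφ
    have h0 := Lp.coeFn_zero ℂ ∞ leb01
    filter_upwards [h0, wtCLM_apply p 0 α f] with x hx0 hx
    rw [hx, hx0]; simp
  by_cases hα' : α = 0 ∨ α = 1
  · refine not_hypercyclic_of_mul φ _ (fun f => ?_) f hf
    filter_upwards [wtCLM_apply p φ α f, hIco] with x hx hx1
    rw [hx]
    have : Int.fract (x + α) = x := by
      rcases hα' with h | h
      · rw [h, add_zero]; exact Int.fract_eq_self.2 hx1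
      · rw [h, Int.fract_add_one]; exact Int.fract_eq_self.2 hx1
    rw [this]
  push Not at hα'
  have hα0 : 0 < α := lt_of_le_of_ne hα.1 (Ne.symm hα'.1)
  have hα1 : α < 1 := lt_of_le_of_ne hα.2 hα'.2
  set s : ℝ := ‖φ‖ + 1 with hs
  -- Test vector `1`.
  have hlow : leb01 {x | ‖wtCLM p φ α f x‖ < s * ‖f x‖} = 1 := by
    refine le_antisymm prob_le_one ?_
    refine le_trans ?_ (law_lower' φ α hf
      (indicatorConstLp p MeasurableSet.univ (measure_ne_top leb01 _) (1 : ℂ)) s)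
    have h1 := const_ae (p := p) 1
    have h2 := (measurePreserving_rot α).quasiMeasurePreserving.ae h1
    have h3 := wtCLM_apply p φ α
      (indicatorConstLp p MeasurableSet.univ (measure_ne_top leb01 _) (1 : ℂ))
    have h4 : ∀ᵐ x ∂leb01, ‖φ x‖ ≤ ‖φ‖ := by
      filter_upwards [enorm_ae_le_eLpNormEssSup φ leb01] with x hx
      rw [← eLpNorm_exponent_top, ← Lp.enorm_def] at hx
      simpa [← ofReal_norm] using hx
    rw [← measure_univ (μ := leb01)]
    refine measure_mono_ae ?_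
    filter_upwards [h1, h2, h3, h4] with x hx1 hx2 hx3 hx4 _
    change ‖wtCLM p φ α _ x‖ < s * ‖_‖
    rw [hx3, hx2, hx1]
    simp only [mul_one, norm_one]
    linarith
  -- Test vector vanishing on a short piece `I` meeting the support of `φ`.
  set ε : ℝ := min α (1 - α) with hε
  have hε0 : 0 < ε := lt_min hα0 (by linarith)
  have hsupp : leb01 {x | φ x ≠ 0} ≠ 0 := by
    intro h
    apply hφ
    rw [Lp.eq_zero_iff_ae_eq_zero]
    have : ∀ᵐ x ∂leb01, φ x = 0 := by
      rw [ae_iff]; exact h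
    exact this
  obtain ⟨j, hj⟩ : ∃ j : ℤ, leb01 ({x | φ x ≠ 0} ∩ {x : ℝ | ⌊x / ε⌋ = j}) ≠ 0 := by
    by_contra hcon
    push Not at hcon
    apply hsupp
    have : ({x | φ x ≠ 0} : Set ℝ) ⊆ ⋃ j : ℤ, {x | φ x ≠ 0} ∩ {x : ℝ | ⌊x / ε⌋ = j} := by
      intro x hx
      exact mem_iUnion.2 ⟨⌊x / ε⌋, hx, rfl⟩
    exact measure_mono_null this (measure_iUnion_null hcon)
  set I : Set ℝ := {x : ℝ | ⌊x / ε⌋ = j} with hI
  have hImeas : MeasurableSet Iᶜ := by
    refine MeasurableSet.compl ?_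
    have : Measurable fun x : ℝ => ⌊x / ε⌋ := Int.measurable_floor.comp (measurable_id.div_const ε)
    exact this (measurableSet_singleton j)
  set g : Lp ℂ p leb01 := indicatorConstLp p hImeas (measure_ne_top leb01 _) (1 : ℂ) with hg
  have hup : leb01 {x | s * ‖f x‖ < ‖wtCLM p φ α f x‖} ≠ 0 := by
    refine (lt_of_lt_of_le (pos_iff_ne_zero.2 hj) (le_trans ?_ (law_upper' φ α hf g s))).ne'
    have h1 := indicatorConstLp_coeFn (p := p) (hs := hImeas)
      (hμs := measure_ne_top leb01 Iᶜ) (c := (1:ℂ))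
    have h2 := (measurePreserving_rot α).quasiMeasurePreserving.ae h1
    have h3 := wtCLM_apply p φ α g
    refine measure_mono_ae ?_
    filter_upwards [h1, h2, h3, hIco] with x hx1 hx2 hx3 hx4 hx5
    change s * ‖g x‖ < ‖wtCLM p φ α g x‖
    obtain ⟨hx5, hx6⟩ := hx5
    have hx5' : φ x ≠ 0 := hx5
    have hx6' : ⌊x / ε⌋ = j := hx6
    have hRx : Int.fract (x + α) ∈ Iᶜ := by
      intro hmem
      have hmem' : ⌊Int.fract (x + α) / ε⌋ = j := hmem
      have hlt := Int.abs_sub_lt_one_of_floor_eq_floor (hx6'.trans hmem'.symm)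
      rw [← sub_div, abs_div, abs_of_pos hε0, div_lt_one hε0] at hlt
      rcases lt_or_ge (x + α) 1 with hlt1 | hge1
      · rw [Int.fract_eq_self.2 ⟨by linarith [hx4.1], hlt1⟩] at hlt
        have : |x - (x + α)| = α := by
          rw [abs_sub_comm]; simp [abs_of_pos hα0]
        rw [this] at hlt
        exact absurd hlt (not_lt.2 (min_le_left _ _))
      · have hfr : Int.fract (x + α) = x + α - 1 := by
          rw [← Int.fract_sub_one]
          exact Int.fract_eq_self.2 ⟨by linarith, by linarith [hx4.2]⟩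
        rw [hfr] at hlt
        have : |x - (x + α - 1)| = 1 - α := by
          rw [show x - (x + α - 1) = 1 - α by ring, abs_of_pos (by linarith)]
        rw [this] at hlt
        exact absurd hlt (not_lt.2 (min_le_right _ _))
    have hgx : g x = 0 := by
      rw [hx1, indicator_of_notMem]
      exact fun h => h hx6'
    have hgR : g (Int.fract (x + α)) = 1 := by
      rw [hx2, indicator_of_mem hRx]
    rw [hx3, hgx, hgR]
    simpa using hx5'
  have hdisj : Disjoint {x | ‖wtCLM p φ α f x‖ < s * ‖f x‖}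
      {x | s * ‖f x‖ < ‖wtCLM p φ α f x‖} := by
    rw [Set.disjoint_left]
    intro x hx1 hx2
    exact lt_asymm (show ‖wtCLM p φ α f x‖ < s * ‖f x‖ from hx1) hx2
  have hB : NullMeasurableSet {x | s * ‖f x‖ < ‖wtCLM p φ α f x‖} leb01 :=
    nullMeasurableSet_lt ((Lp.aestronglyMeasurable f).norm.aemeasurable.const_mul s)
      (Lp.aestronglyMeasurable (wtCLM p φ α f)).norm.aemeasurable
  have htot := measure_union₀ hB hdisj.aedisjoint
  rw [hlow] at htot
  have hle : leb01 ({x | ‖wtCLM p φ α f x‖ < s * ‖f x‖} ∪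
      {x | s * ‖f x‖ < ‖wtCLM p φ α f x‖}) ≤ 1 := prob_le_one
  rw [htot] at hle
  have h5 : leb01 {x | s * ‖f x‖ < ‖wtCLM p φ α f x‖} ≤ 0 := by
    have := ENNReal.le_sub_of_add_le_left (by simp) hle
    simpa using this
  exact hup (le_antisymm h5 zero_le)

end

end Pool.Agent.Lib.MP_e40715_an
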